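import Pool.Agent.Q202.QK.Kernel

/-!
# The constants `c_{δ,q}` are not `1 / (δ + 1)`

For every fixed `q ≥ 2` (in particular for every `q ≥ 3`) the product `c_{δ,q} (δ + 1)` tends to
infinity with `δ`.
-/

open Filter
open Pool.Agent.Q202.QK

namespace Pool.Agent.Results.MP_32aa3b_co.RatioUnbounded

/-- **Negative answer to Q1.** For all `q ≥ 2` and all `δ` the least constant `c_{δ,q}` exists and
equals `cConst δ q`; for every `q ≥ 2` we have `c_{δ,q} (δ + 1) → ∞` as `δ → ∞`, so that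
`c_{δ,q} > 1 / (δ + 1)` for all large `δ`; and for all `q` and `C`, for every large `δ` there is a
digraph of minimum in-degree `δ` in which every set (independent or not) that reaches all vertices
by directed paths of length at most `q` has more than `C |V| / (δ + 1)` vertices. -/
theorem result :
    (∀ q, 2 ≤ q → ∀ δ, IsLeast {c : ℝ | Works δ q c} (cConst δ q)) ∧
    (∀ q, 2 ≤ q → Tendsto (fun δ : ℕ => cConst δ q * ((δ : ℝ) + 1)) atTop atTop) ∧
    (∀ q, 2 ≤ q → ∀ᶠ δ : ℕ in atTop, 1 / ((δ : ℝ) + 1) < cConst δ q) ∧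
    (∀ q C : ℕ, ∃ δ₀ : ℕ, ∀ δ, δ₀ ≤ δ → ∃ (n : ℕ) (D : Digraph (Fin n)),
      0 < n ∧ (∀ v, ¬ D.Adj v v) ∧ MinInDegEq D δ ∧
      ∀ Q : Finset (Fin n), Reaches D q Q → C * n < Q.card * (δ + 1)) := by
  refine ⟨fun q hq δ => isLeast_cConst δ q hq, tendsto_cConst, ?_, exists_digraph⟩
  intro q hq
  filter_upwards [(tendsto_cConst q hq).eventually_gt_atTop 1] with δ hδ
  have h : (0 : ℝ) < (δ : ℝ) + 1 := by positivity
  rw [div_lt_iff₀ h]
  exact hδ

end Pool.Agent.Results.MP_32aa3b_co.RatioUnbounded
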